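import Pool.Agent.helper46.T6L.SpecO

set_option autoImplicit false

namespace Pool.Agent.T6L

open Finset NumberField Pool.Agent.helper3.FT Pool.Agent.helper47.RA Pool.Agent.T5
open Pool.Agent.helper26.T5 (nn LEMB LPR LAW LP LPA HLN HPR HSQ HID HCL HGA)
open Pool.Agent.helper28.LT (rad)

/-- `A` and `(p)` are not coprime if `p` divides the norm -/
theorem OPR_sup {K : Type} [Field K] [NumberField K] (Q : QF K) (a : Ideal (𝓞 K)) (p : ℕ)
    (hp : p.Prime) (hd : p ∣ Ideal.absNorm a) : a ⊔ Ideal.span {(p : 𝓞 K)} ≠ ⊤ := by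
  intro htop
  have hc : IsCoprime a (Ideal.span {(p : 𝓞 K)}) := Ideal.isCoprime_iff_sup_eq.2 htop
  have hcb : IsCoprime (Q.bar a) (Ideal.span {(p : 𝓞 K)}) := by
    apply Ideal.isCoprime_iff_sup_eq.2
    have h1 : Q.bar (a ⊔ Ideal.span {(p : 𝓞 K)}) = ⊤ := by
      rw [htop]
      exact Ideal.map_top Q.cj
    have h2 : Q.bar (a ⊔ Ideal.span {(p : 𝓞 K)}) =
        Q.bar a ⊔ Q.bar (Ideal.span {(p : 𝓞 K)}) := Ideal.map_sup Q.cj _ _
    rw [h2, h96_bar_q] at h1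
    exact h1
  have h3 : IsCoprime (a * Q.bar a) (Ideal.span {(p : 𝓞 K)}) := IsCoprime.mul_left hc hcb
  rw [Q.mul_bar] at h3
  have h4 : Ideal.span {((Ideal.absNorm a : ℕ) : 𝓞 K)} ≤ Ideal.span {(p : 𝓞 K)} := by
    rw [Ideal.span_singleton_le_span_singleton]
    exact Nat.cast_dvd_cast hd
  have h5 := Ideal.isCoprime_iff_sup_eq.1 h3
  rw [sup_eq_right.2 h4] at h5
  have h6 := h96_norm_q Q p
  rw [h5, Ideal.absNorm_top] at h6
  have h7 := hp.one_lt
  nlinarith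

/-- the core: `P = A ⊔ (p)`, `P ^ x ∣ A` -/
theorem OPR_core {K : Type} [Field K] [NumberField K] (Q : QF K) (A : Ideal (𝓞 K)) (p x : ℕ)
    (hp : p.Prime) (hA : ¬ Ideal.span {(p : 𝓞 K)} ∣ A) (hx : 1 ≤ x) (hd : p ^ x ∣ Ideal.absNorm A) :
    Ideal.absNorm (A ⊔ Ideal.span {(p : 𝓞 K)}) = p ∧ (A ⊔ Ideal.span {(p : 𝓞 K)}) ^ x ∣ A := by
  have hp1 : p ∣ Ideal.absNorm A := (dvd_pow_self p (by omega)).trans hd
  have hN : Ideal.absNorm (A ⊔ Ideal.span {(p : 𝓞 K)}) = p :=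
    h96_gcd_q Q p hp A hA (OPR_sup Q A p hp hp1)
  refine ⟨hN, ?_⟩
  have key : ∀ y, y ≤ x → (A ⊔ Ideal.span {(p : 𝓞 K)}) ^ y ∣ A := by
    intro y
    induction y with
    | zero =>
      intro _
      rw [pow_zero]
      exact one_dvd _
    | succ y ih =>
      intro hy
      obtain ⟨B, hB⟩ := ih (by omega)
      have h1 : Ideal.absNorm A = p ^ y * Ideal.absNorm B := by
        calc Ideal.absNorm A = Ideal.absNorm ((A ⊔ Ideal.span {(p : 𝓞 K)}) ^ y * B) := by rw [← hB]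
          _ = _ := by rw [map_mul, map_pow, hN]
      have h2 : p ∣ Ideal.absNorm B := by
        have h3 : p ^ (y + 1) ∣ p ^ y * Ideal.absNorm B := by
          rw [← h1]
          exact (pow_dvd_pow p hy).trans hd
        rw [pow_succ] at h3
        exact Nat.dvd_of_mul_dvd_mul_left (pow_pos hp.pos y) h3
      have hBA : B ∣ A := ⟨(A ⊔ Ideal.span {(p : 𝓞 K)}) ^ y, by rw [mul_comm]; exact hB⟩
      have hBp : ¬ Ideal.span {(p : 𝓞 K)} ∣ B := fun h => hA (h.trans hBA)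
      have hNB : Ideal.absNorm (B ⊔ Ideal.span {(p : 𝓞 K)}) = p :=
        h96_gcd_q Q p hp B hBp (OPR_sup Q B p hp h2)
      have h4 : B ⊔ Ideal.span {(p : 𝓞 K)} ∣ A ⊔ Ideal.span {(p : 𝓞 K)} :=
        Ideal.dvd_iff_le.2 (sup_le_sup_right (Ideal.dvd_iff_le.1 hBA) _)
      have h5 : B ⊔ Ideal.span {(p : 𝓞 K)} = A ⊔ Ideal.span {(p : 𝓞 K)} :=
        h96_eq_of_dvd h4 (by rw [hN]; exact hp.ne_zero) (by rw [hN, hNB])
      have h6 : A ⊔ Ideal.span {(p : 𝓞 K)} ∣ B := by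
        rw [← h5]
        exact Ideal.dvd_iff_le.2 le_sup_left
      have h7 : (A ⊔ Ideal.span {(p : 𝓞 K)}) ^ y * (A ⊔ Ideal.span {(p : 𝓞 K)}) ∣
          (A ⊔ Ideal.span {(p : 𝓞 K)}) ^ y * B := mul_dvd_mul_left _ h6
      rw [← hB, ← pow_succ] at h7
      exact h7
  exact key x le_rfl

/-- removing the content -/
theorem OPR_cont {K : Type} [Field K] [NumberField K] (A : Ideal (𝓞 K)) (p c : ℕ)
    (h : ¬ id' K (p ^ (c + 1)) ∣ A) :
    ∃ c' ≤ c, ∃ B : Ideal (𝓞 K), A = id' K (p ^ c') * B ∧ ¬ Ideal.span {(p : 𝓞 K)} ∣ B := by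
  classical
  have hex : ∃ j, ¬ id' K (p ^ (j + 1)) ∣ A := ⟨c, h⟩
  have h1 : Nat.find hex ≤ c := Nat.find_min' hex h
  have h2 : ¬ id' K (p ^ (Nat.find hex + 1)) ∣ A := Nat.find_spec hex
  have h3 : ∀ j, j < Nat.find hex → id' K (p ^ (j + 1)) ∣ A := fun j hj => not_not.1 (Nat.find_min hex hj)
  generalize Nat.find hex = c' at h1 h2 h3
  have h4 : id' K (p ^ c') ∣ A := by
    rcases Nat.eq_zero_or_pos c' with h0 | h0
    · rw [h0, pow_zero]
      unfold id'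
      rw [Nat.cast_one, Ideal.span_singleton_one]
      exact Ideal.dvd_iff_le.2 le_top
    · have := h3 (c' - 1) (by omega)
      rw [Nat.sub_add_cancel h0] at this
      exact this
  obtain ⟨B, hB⟩ := h4
  refine ⟨c', h1, B, hB, fun h5 => h2 ?_⟩
  have h6 : id' K (p ^ (c' + 1)) = id' K (p ^ c') * Ideal.span {(p : 𝓞 K)} := by
    unfold id'
    rw [Ideal.span_singleton_mul_span_singleton, pow_succ]
    push_cast
    rfl
  rw [h6, hB]
  exact mul_dvd_mul_left _ h5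

/-- OPR -/
theorem OPR (hLPA : LPA) : OPR_stmt := by
  intro K _ _ Q A p m c hp hA hm hc
  rcases Nat.lt_or_ge (2 * c) m with hmc | hmc
  · obtain ⟨c', hc', B, hB, hpB⟩ := OPR_cont A p c hc
    have h1 : Ideal.absNorm A = p ^ (2 * c') * Ideal.absNorm B := by
      rw [hB, map_mul]
      unfold id'
      rw [h96_norm_q Q, ← pow_mul, mul_comm c' 2]
    have h2 : p ^ (m - 2 * c) ∣ Ideal.absNorm B := by
      have h3 : p ^ (2 * c') * p ^ (m - 2 * c') ∣ p ^ (2 * c') * Ideal.absNorm B := by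
        rw [← pow_add, ← h1]
        exact (pow_dvd_pow p (by omega)).trans hm
      have h4 := Nat.dvd_of_mul_dvd_mul_left (pow_pos hp.pos _) h3
      exact (pow_dvd_pow p (by omega)).trans h4
    obtain ⟨hN, hP⟩ := OPR_core Q B p (m - 2 * c) hp hpB (by omega) h2
    have hN' : Ideal.absNorm ((B ⊔ Ideal.span {(p : 𝓞 K)}) ^ (m - 2 * c)) = p ^ (m - 2 * c) := by
      rw [map_pow, hN]
    refine ⟨B ⊔ Ideal.span {(p : 𝓞 K)}, hP.trans ⟨id' K (p ^ c'), by rw [hB, mul_comm]⟩, ?_, hN'⟩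
    intro q hq hqd
    have h5 : q ^ 2 ∣ p ^ (m - 2 * c) := by
      rw [← h96_norm_q Q q, ← hN']
      exact map_dvd _ hqd
    have h6 : q ∣ p := hq.dvd_of_dvd_pow ((dvd_pow_self q (by norm_num)).trans h5)
    have h7 : q = p := (Nat.prime_dvd_prime_iff_eq hq hp).1 h6
    rw [h7] at hqd
    exact hpB (hqd.trans hP)
  · have h0 : m - 2 * c = 0 := by omega
    rw [h0]
    refine ⟨⊤, ?_, ?_, ?_⟩
    · rw [pow_zero]
      exact one_dvd _
    · rw [pow_zero]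
      intro q hq hqd
      have h1 := map_dvd Ideal.absNorm hqd
      rw [h96_norm_q Q q, map_one] at h1
      have h2 := Nat.dvd_one.1 h1
      have h3 := hq.one_lt
      nlinarith
    · rw [pow_zero, pow_zero, map_one]

end Pool.Agent.T6L
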